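import Pool.Agent.R498.MT.QSys

set_option autoImplicit false

/-!
# Clusters of almost primes `x` with `x ^ 2 - 2` in `P₃`, in narrow progressions
-/

namespace Pool.Agent.Results.MP_c971ef_nt.AlmostPrimePairs

open Filter

/-- `n` has at most `r` prime factors, counted with multiplicity, all of them at least `w`. -/
def AlmostPrime (r : ℕ) (w : ℝ) (n : ℕ) : Prop :=
  n.primeFactorsList.length ≤ r ∧ ∀ q : ℕ, q.Prime → q ∣ n → w ≤ q

/-- **A theorem of Maynard-Tao type for `x` and `x ^ 2 - 2`.** For every `m` there is `K` such that, for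
every finite set `S` of at least `K` nonnegative integers, there are `r` and `δ > 0`, and for every `l`
there is an exponent `B`, such that for all large `N` there are a subset `H` of `S` with `m` elements and
an arithmetic progression `n, n + d, ..., n + (l - 1) d` in `(N, N + N ^ (3 / 4)]` with difference
`1 ≤ d ≤ (log N) ^ B` such that for all its terms `y` and all `h ∈ H`, with `x = y + h`: the number
`x ^ 2 - 2` has at most three prime factors, all of them at least `N ^ (73 / 400)`, and `x` has at most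
`r` prime factors, all of them at least `N ^ δ`. -/
theorem result (m : ℕ) : ∃ K : ℕ, ∀ S : Finset ℕ, K ≤ S.card → ∃ (r : ℕ) (δ : ℝ), 0 < δ ∧
    ∀ l : ℕ, ∃ B : ℕ, ∀ᶠ N : ℕ in atTop, ∃ H ⊆ S, H.card = m ∧ ∃ n d : ℕ, 1 ≤ d ∧
      (d : ℝ) ≤ Real.log N ^ B ∧ ∀ j < l, N < n + j * d ∧
        ((n + j * d : ℕ) : ℝ) ≤ N + (N : ℝ) ^ (3 / 4 : ℝ) ∧
        ∀ h ∈ H, AlmostPrime 3 ((N : ℝ) ^ (73 / 400 : ℝ)) ((n + j * d + h) ^ 2 - 2) ∧
          AlmostPrime r ((N : ℝ) ^ δ) (n + j * d + h) := by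
  obtain ⟨K, hK⟩ := Pool.Agent.R498.MT.quad_sys 1 0 (-2) one_ne_zero
    (by
      rintro ⟨r, hr⟩
      norm_num at hr
      have h1 : r ≤ 2 := by nlinarith
      have h2 : -2 ≤ r := by nlinarith
      interval_cases r <;> omega)
    Polynomial.X Polynomial.X_ne_zero
    (fun p hp => ⟨1, fun h => by
      rw [Polynomial.eval_X] at h
      norm_num at h
      have h2 : p ∣ 1 := by exact_mod_cast h
      exact hp.one_lt.ne' (Nat.dvd_one.1 h2)⟩) m
  refine ⟨K, fun S hS => ?_⟩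
  obtain ⟨r, δ, hδ, hmain⟩ := hK S hS
  refine ⟨r, δ, hδ, fun l => ?_⟩
  obtain ⟨B, hB⟩ := hmain l
  refine ⟨B, ?_⟩
  filter_upwards [hB, eventually_ge_atTop 2] with N hN hN2
  obtain ⟨H, hH, hHc, n, d, h1, h2, h3⟩ := hN
  refine ⟨H, hH, hHc, n, d, h1, h2, fun j hj => ?_⟩
  obtain ⟨h4, h5, h6⟩ := h3 j hj
  refine ⟨h4, h5, fun h hh => ?_⟩
  obtain ⟨g1, g2, g3, g4⟩ := h6 h hh
  have e1 : 1 * ((n + j * d + h : ℕ) : ℤ) ^ 2 + 0 * ((n + j * d + h : ℕ) : ℤ) + (-2) =
      (((n + j * d + h) ^ 2 - 2 : ℕ) : ℤ) := by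
    have hx : 2 ≤ n + j * d + h := by omega
    have : 2 ≤ (n + j * d + h) ^ 2 := by nlinarith
    rw [Nat.cast_sub this]
    push_cast
    ring
  rw [e1] at g1 g2
  rw [Int.natAbs_natCast] at g1
  rw [Polynomial.eval_X] at g3 g4
  rw [Int.natAbs_natCast] at g3
  exact ⟨⟨g1, fun q hq hqd => g2 q hq (by exact_mod_cast hqd)⟩, g3,
    fun q hq hqd => g4 q hq (by exact_mod_cast hqd)⟩

end Pool.Agent.Results.MP_c971ef_nt.AlmostPrimePairs
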