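import Pool.Agent.R498.MP.LinC

set_option autoImplicit false

/-!
# Almost prime values `p ^ 2 - 2` at the primes whose index is a multiple of `n`
-/

namespace Pool.Agent.Results.MP_c971ef_nt.IndexMultiples

open Filter

/-- The `j`-th prime: `pr 1 = 2`, `pr 2 = 3`, and so on. -/
noncomputable def pr (j : ℕ) : ℕ := Nat.nth Nat.Prime (j - 1)

/-- `p ^ 2 - 2` has at most `R` prime factors, counted with multiplicity, all of them at least `w`. -/
def AlmostPrimeValue (R : ℕ) (w : ℝ) (p : ℕ) : Prop :=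
  (p ^ 2 - 2).primeFactorsList.length ≤ R ∧ ∀ q : ℕ, q.Prime → q ∣ p ^ 2 - 2 → w ≤ q

theorem cast_val (p : ℕ) (hp : 2 ≤ p) : (p : ℤ) ^ 2 - 2 = ((p ^ 2 - 2 : ℕ) : ℤ) := by
  have : 2 ≤ p ^ 2 := by nlinarith
  push_cast [this]
  ring

theorem nonzero (n : ℤ) : n ^ 2 - 2 ≠ 0 := by
  intro h
  have h1 : n ≤ 1 := by nlinarith
  have h2 : -1 ≤ n := by nlinarith
  interval_cases n <;> omega

theorem hev (n : ℤ) : (Polynomial.X ^ 2 - 2 : Polynomial ℤ).eval n = n ^ 2 - 2 := by simp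

/-- **Almost prime values `p_{kn} ^ 2 - 2` with bounded gaps.** Let `q` be squarefree and let
`c (c ^ 2 - 2)` be coprime to `q` (for instance `q = 1`). For all `n ≥ 1` and `r` there are `C`, `R` and
`δ > 0` such that for all large `N` there is a `k ≥ 1` such that the primes
`p_{kn} < p_{(k+1)n} < ... < p_{(k+r)n}` lie in `(N, 2 N]`, in an interval of length at most `C`, they are
all `≡ c` modulo `q`, and for each of them, `p` say, the number `p ^ 2 - 2` has at most `R` prime factors,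
all of them at least `N ^ δ`. -/
theorem result (q c : ℕ) (hq : Squarefree q)
    (hc : IsCoprime ((c : ℤ) * ((c : ℤ) ^ 2 - 2)) (q : ℤ)) (n r : ℕ) (hn : 0 < n) :
    ∃ (C R : ℕ) (δ : ℝ), 0 < δ ∧ ∀ᶠ N : ℕ in atTop, ∃ k : ℕ, 0 < k ∧
      N < pr (k * n) ∧ pr ((k + r) * n) ≤ 2 * N ∧ pr ((k + r) * n) ≤ pr (k * n) + C ∧
      ∀ i ≤ r, pr ((k + i) * n) ≡ c [MOD q] ∧
        AlmostPrimeValue R ((N : ℝ) ^ δ) (pr ((k + i) * n)) := by
  obtain ⟨C, R, δ, hδ, hmain⟩ := Pool.Agent.R498.MP.index_runsC (Polynomial.X ^ 2 - 2)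
    (fun n _ => by rw [hev]; exact nonzero n)
    (fun p hp => ⟨1, fun h => by
      rw [hev] at h
      norm_num at h
      have h2 : p ∣ 1 := by exact_mod_cast h
      exact hp.one_lt.ne' (Nat.dvd_one.1 h2)⟩) q c hq (fun p hp hpq => by
      rw [hev]
      exact Pool.Agent.R498.MP.cop_to _ q hc p hp hpq) n r hn
  refine ⟨C, R, δ, hδ, ?_⟩
  filter_upwards [hmain (n - 1)] with N hN
  obtain ⟨k, h1, h2, h3, h4⟩ := hN
  have e : ∀ i, pr ((k + 1 + i) * n) = Nat.nth Nat.Prime (n * (k + i) + (n - 1)) := by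
    intro i
    unfold pr
    congr 1
    have : (k + 1 + i) * n = n * (k + i) + n := by ring
    omega
  have e0 : pr ((k + 1) * n) = Nat.nth Nat.Prime (n * k + (n - 1)) := by
    have := e 0
    simpa using this
  refine ⟨k + 1, by omega, ?_, ?_, ?_, fun i hi => ?_⟩
  · rw [e0]; exact h1
  · rw [e r]; exact h2
  · rw [e0, e r]; exact h3
  · rw [e i]
    obtain ⟨gc, -, g1, g2⟩ := h4 i hi
    have hp : 2 ≤ Nat.nth Nat.Prime (n * (k + i) + (n - 1)) := (Nat.prime_nth_prime _).two_le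
    rw [hev, cast_val _ hp] at g1 g2
    rw [Int.natAbs_natCast] at g1
    exact ⟨gc, g1, fun q hq hqd => g2 q hq (by exact_mod_cast hqd)⟩

end Pool.Agent.Results.MP_c971ef_nt.IndexMultiples
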