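import Pool.Agent.R498.QP

set_option autoImplicit false

/-!
# Narrow progressions in arbitrary sets of primes `p` with `p ^ 2 - 2` prime or rough
-/

namespace Pool.Agent.Results.MP_c971ef_nt.NarrowProgressions

open Finset Filter

/-- The numbers `m` such that all prime factors of `m` and of `m ^ 2 - 2` are larger than
`m ^ (1 / r)`. It contains all primes `m` such that `m ^ 2 - 2` is a prime. -/
def RoughPair (r : ℕ) : Set ℕ :=
  {m | ∀ q : ℕ, q.Prime → (q ∣ m ∨ (q : ℤ) ∣ (m : ℤ) ^ 2 - 2) → (m : ℝ) ^ (1 / (r : ℝ)) < (q : ℝ)}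

/-- `m` is a term of an `l`-term arithmetic progression with difference at most `D`, all terms of which
are elements of `A` in the interval `(a, b]`. -/
def InProgression (A : Set ℕ) (l : ℕ) (D : ℝ) (a b m : ℕ) : Prop :=
  ∃ u d : ℕ, 1 ≤ d ∧ (d : ℝ) ≤ D ∧ (∀ i < l, u + i * d ∈ A ∧ a < u + i * d ∧ u + i * d ≤ b) ∧
    ∃ i < l, m = u + i * d

open Classical in
/-- **Narrow progressions.** Let `θ > 0`, `r, l ≥ 2` and `ε > 0`. There is an exponent `B` such that for
all large `X`, all `X ^ θ ≤ Y ≤ X` and EVERY set `A` of integers `m` such that neither `m` nor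
`m ^ 2 - 2` has a prime factor `≤ m ^ (1 / r)`, for instance every set of primes `p` with `p ^ 2 - 2`
prime: all but at most `ε Y / log ^ 2 X` of the elements of `A` in `(X, X + Y]` are terms of `l`-term
arithmetic progressions, contained in the part of `A` in `(X, X + Y]`, with difference at most
`(log X) ^ B`. -/
theorem result (θ : ℝ) (hθ : 0 < θ) (r : ℕ) (hr : 2 ≤ r) (l : ℕ) (hl : 2 ≤ l) (ε : ℝ) (hε : 0 < ε) :
    ∃ B : ℕ, ∀ᶠ X : ℕ in atTop, ∀ Y : ℕ, (X : ℝ) ^ θ ≤ Y → Y ≤ X →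
      ∀ A : Set ℕ, A ⊆ RoughPair r →
        (((Ioc X (X + Y)).filter (fun m : ℕ =>
          m ∈ A ∧ ¬ InProgression A l (Real.log X ^ B) X (X + Y) m)).card : ℝ) ≤
        ε * (Y / Real.log X ^ 2) := by
  obtain ⟨B, hB⟩ := Pool.Agent.R498.QP.narrow_quad 1 0 (-2) (by norm_num)
    (by
      rintro p hp ⟨h1, -, -⟩
      exact hp.one_lt.ne' (Nat.dvd_one.1 (by exact_mod_cast h1)))
    (by
      rintro ⟨r, hr⟩
      norm_num at hr
      have h1 : r ≤ 2 := by nlinarith
      have h2 : -2 ≤ r := by nlinarith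
      interval_cases r <;> omega)
    (by
      intro p hp
      refine ⟨1, fun h => hp.one_lt.ne' (Nat.dvd_one.1 h), fun h => ?_⟩
      norm_num at h
      have h2 : p ∣ 1 := by exact_mod_cast h
      exact hp.one_lt.ne' (Nat.dvd_one.1 h2))
    θ hθ r hr l hl ε hε
  refine ⟨B, ?_⟩
  filter_upwards [hB] with X hX Y hXY hYX A hA
  have h := hX Y hXY hYX A (fun m hm => ⟨fun p hp hd => hA hm p hp (Or.inl hd), fun p hp hd => by
    refine hA hm p hp (Or.inr ?_)
    have e : (1 : ℤ) * (m : ℤ) ^ 2 + 0 * m + (-2) = (m : ℤ) ^ 2 - 2 := by ring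
    rwa [e] at hd⟩)
  rw [mul_div_assoc] at h
  refine le_trans (le_of_eq ?_) h
  unfold Pool.Agent.TH977.PW.N
  congr 2
  apply filter_congr
  intro m _
  exact Iff.rfl

end Pool.Agent.Results.MP_c971ef_nt.NarrowProgressions
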